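import Mathlib
import Pool.Agent.Lib.MP_fe6d4f_gt.V.Char

/-!
Which torsion, torsion-free or small abelian groups carry a group topology with a stationary
winning strategy.
-/

namespace Pool.Agent.Results.MP_fe6d4f_gt.Criterion

open Cardinal Pool.Agent.Lib.MP_fe6d4f_gt.Sp Pool.Agent.Lib.MP_fe6d4f_gt

universe u

theorem result (G : Type u) [AddCommGroup G]
    (hG : 𝔠 ≤ Module.rank ℤ G → ∃ m : ℕ, 0 < m ∧
      #(Set.range fun g : G => m • g) ≤ max (Module.rank ℤ G) (2 ^ (𝔠 : Cardinal.{u}))) :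
    List.TFAE
      [∃ τ : TopologicalSpace G, IsTopologicalAddGroup G ∧ T2Space G ∧ WinsSsp G τ,
       ∃ τ : TopologicalSpace G, IsTopologicalAddGroup G ∧ T2Space G ∧ WinsSp G τ,
       (∀ m : ℕ, 0 < m → (Set.range fun g : G => m • g).Finite ∨ ∃ κ : Cardinal.{u}, ℵ₀ ≤ κ ∧
          κ ^ ℵ₀ ≤ #(Set.range fun g : G => m • g) ∧ #(Set.range fun g : G => m • g) ≤ 2 ^ κ) ∧
        ((∃ q : ℕ, 0 < q ∧ ∀ g : G, q • g = 0) ∨ 𝔠 ≤ Module.rank ℤ G)] := by
  tfae_have 1 → 2 := fun ⟨τ, a, b, c⟩ => ⟨τ, a, b, c.sp⟩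
  tfae_have 2 → 3 := fun ⟨τ, a, b, c⟩ => V.crit_of_sp c
  tfae_have 3 → 1 := V.ssp_of_crit hG
  tfae_finish

/-- Torsion groups satisfy the hypothesis. -/
theorem torsion (G : Type u) [AddCommGroup G] (h : ∀ g : G, ∃ k : ℕ, 0 < k ∧ k • g = 0) :
    ¬ 𝔠 ≤ Module.rank ℤ G := by
  rw [(rank_eq_zero_iff (R := ℤ)).2 fun g =>
    let ⟨k, a, b⟩ := h g; ⟨(k : ℤ), by omega, by simpa using b⟩]
  exact continuum_pos.not_ge

/-- Torsion-free groups satisfy the hypothesis. -/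
theorem torsionFree (G : Type u) [AddCommGroup G] (h : ∀ (k : ℕ) (g : G), 0 < k → k • g = 0 → g = 0) :
    #(Set.range fun g : G => (1 : ℕ) • g) ≤ max (Module.rank ℤ G) (2 ^ (𝔠 : Cardinal.{u})) := by
  obtain ⟨B, b1, b2⟩ := exists_maximal_linearIndepOn ℤ (id : G → G)
  have b3 : ∀ g, ∃ k : ℕ, 0 < k ∧ k • g ∈ AddSubgroup.closure B := fun g => by
    by_cases d : g ∈ B
    · exact ⟨1, one_pos, by simpa using AddSubgroup.subset_closure d⟩
    obtain ⟨a, a1, a2⟩ := b2 g d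
    refine ⟨a.natAbs, Int.natAbs_pos.2 a1, ?_⟩
    rw [V.natAbs_mem, ← Submodule.span_int_eq_addSubgroupClosure]
    simpa using a2
  choose k k1 k2 using b3
  have hc : ℵ₀ ≤ max (Module.rank ℤ G) (2 ^ (𝔠 : Cardinal.{u})) :=
    (aleph0_le_continuum.trans (cantor _).le).trans (le_max_right _ _)
  refine mk_range_le.trans ((mk_le_of_injective
    (f := fun g => ((⟨k g⟩, ⟨_, k2 g⟩) : ULift.{u} ℕ × AddSubgroup.closure B)) fun a b e => ?_).trans ?_)
  · simp only [Prod.mk.injEq, ULift.up.injEq, Subtype.mk.injEq] at e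
    exact sub_eq_zero.1 (h (k a) _ (k1 a) (by rw [smul_sub, e.2, e.1, sub_self]))
  · rw [← mul_def]
    exact mul_le_of_le hc (mk_le_aleph0.trans hc)
      (V.mk_cl_le hc ((LinearIndependent.cardinal_le_rank b1).trans (le_max_left _ _)))

/-- Q1 and Q2 hold for groups of size at most `2 ^ 𝔠`. -/
theorem small (G : Type u) [AddCommGroup G]
    (hp : ∃ τ : TopologicalSpace G, IsTopologicalAddGroup G ∧ T2Space G ∧
      ∀ f : G → ℝ, Continuous f → ∃ C, ∀ x, |f x| ≤ C) (h : #G ≤ 2 ^ (𝔠 : Cardinal.{u})) :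
    ∃ τ : TopologicalSpace G, IsTopologicalAddGroup G ∧ T2Space G ∧ WinsSsp G τ := by
  obtain ⟨τ, a, b, c⟩ := hp
  exact V.ssp_of_crit (fun _ => ⟨1, one_pos, (mk_range_le.trans h).trans (le_max_right _ _)⟩)
    (V.crit_of_small c h)

/-- The earlier statement for groups of prime exponent. -/
theorem primeExponent (p : ℕ) (hp : p.Prime) (G : Type u) [AddCommGroup G]
    (hG : ∀ g : G, p • g = 0) :
    List.TFAE
      [∃ τ : TopologicalSpace G, IsTopologicalAddGroup G ∧ T2Space G ∧ WinsSsp G τ,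
       ∃ τ : TopologicalSpace G, IsTopologicalAddGroup G ∧ T2Space G ∧ WinsSp G τ,
       Finite G ∨ ∃ κ : Cardinal.{u}, ℵ₀ ≤ κ ∧ κ ^ ℵ₀ ≤ #G ∧ #G ≤ 2 ^ κ] := by
  have h := result G fun c => (torsion G (fun g => ⟨p, hp.pos, hG g⟩) c).elim
  have e : ∀ m : ℕ, ¬ p ∣ m → (Set.range fun g : G => m • g) = Set.univ := fun m hm =>
    Set.eq_univ_of_forall fun g => by
      obtain ⟨k, hk⟩ := Nat.exists_mul_mod_eq_one_of_coprime
        ((hp.coprime_iff_not_dvd.2 hm).symm) hp.one_lt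
      refine ⟨k • g, ?_⟩
      simp only [smul_smul]
      rw [← Nat.div_add_mod (m * k) p, hk.2, add_smul, mul_smul, hG, zero_add, one_smul]
  tfae_have 1 ↔ 2 := h.out 0 1
  tfae_have 2 ↔ 3 := by
    refine (h.out 1 2).trans ⟨fun a => ?_, fun a => ?_⟩
    · have := a.1 1 one_pos
      rwa [e 1 hp.not_dvd_one, mk_univ, Set.finite_univ_iff] at this
    · refine ⟨fun m _ => ?_, Or.inl ⟨p, hp.pos, hG⟩⟩
      by_cases d : p ∣ m
      · obtain ⟨j, rfl⟩ := d
        exact Or.inl ((Set.finite_singleton 0).subset (by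
          rintro _ ⟨g, rfl⟩; simp [mul_smul, hG]))
      · rwa [e m d, mk_univ, Set.finite_univ_iff]
  tfae_finish

end Pool.Agent.Results.MP_fe6d4f_gt.Criterion
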