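import Mathlib
import Pool.Agent.Lib.MP_053343_lc.Defs
import Pool.Agent.Lib.MP_fe6d4f_gt.Defs
import Pool.Agent.Lib.MP_fe6d4f_gt.NoWin
import Pool.Agent.Lib.MP_fe6d4f_gt.Pos.Main
import Pool.Agent.Shared.Constr.Kurepa

/-!
Q1 of MP_fe6d4f_gt is independent of ZFC: it holds in one transitive model of ZFC and fails in
another.
-/

namespace Pool.Agent.Results.MP_fe6d4f_gt.Independence

open Pool.Agent.Lib.MP_053343_lc Pool.Agent.Lib.MP_fe6d4f_gt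

theorem result :
    (∃ M : ZFSet.{0}, ModelZF M ∧ AC M ∧
      ∀ (G : ZFSet.{0}) (add : ZFSet.{0} → ZFSet.{0} → ZFSet.{0}) (o : ZFSet.{0}),
        AbGrp M G add o → (∃ τ, GroupTop M G add o τ ∧ Pseudocompact M G τ) →
          ∃ τ, GroupTop M G add o τ ∧ WinsSsp M G τ) ∧
    (∃ M : ZFSet.{0}, ModelZF M ∧ AC M ∧
      ∃ (G : ZFSet.{0}) (add : ZFSet.{0} → ZFSet.{0} → ZFSet.{0}) (o : ZFSet.{0}),
        AbGrp M G add o ∧ (∃ τ, GroupTop M G add o τ ∧ Pseudocompact M G τ) ∧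
          ∀ τ, GroupTop M G add o τ → ¬ WinsSsp M G τ) := by
  refine ⟨⟨Shared.Constr.LM, Shared.Constr.modelZF, Shared.InModel.ac,
    Pos.q1 _ Shared.Constr.gch Shared.Constr.kh⟩, ?_⟩
  obtain ⟨C⟩ := Pool.Agent.Shared.Forcing.exists_ctx (RR Ph) (DD Ph)
  exact ⟨C.M, C.modelZF, C.choice, _, _, _, abGrp, ⟨_, groupTop, pseudocompact⟩,
    fun _ => not_wins⟩

end Pool.Agent.Results.MP_fe6d4f_gt.Independence
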