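import Mathlib
import Pool.Agent.Lib.MP_fe6d4f_gt.V.Main

/-!
Q2 for all abelian groups below whose size the singular cardinal hypothesis does not fail.
-/

namespace Pool.Agent.Results.MP_fe6d4f_gt.SpLocalSCH

open Cardinal Pool.Agent.Lib.MP_fe6d4f_gt.Sp

universe u

theorem result (G : Type u) [AddCommGroup G]
    (hp : ∃ τ : TopologicalSpace G, IsTopologicalAddGroup G ∧ T2Space G ∧
      ∀ f : G → ℝ, Continuous f → ∃ C, ∀ x, |f x| ≤ C)
    (hs : ∀ ν : Cardinal.{u}, 𝔠 < ν →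
      (∀ l < ν, (2 : Cardinal.{u}) ^ (2 : Cardinal.{u}) ^ l < #G) → ν ^ ℵ₀ ≤ Order.succ ν) :
    ∃ τ : TopologicalSpace G, IsTopologicalAddGroup G ∧ T2Space G ∧ WinsSp G τ :=
  Pool.Agent.Lib.MP_fe6d4f_gt.V.sp_of_tame hp hs

/-- The cardinal condition is empty for groups of size at most `2 ^ 2 ^ 𝔠`. -/
theorem small (G : Type u) [AddCommGroup G]
    (hp : ∃ τ : TopologicalSpace G, IsTopologicalAddGroup G ∧ T2Space G ∧
      ∀ f : G → ℝ, Continuous f → ∃ C, ∀ x, |f x| ≤ C)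
    (h : #G ≤ (2 : Cardinal.{u}) ^ (2 : Cardinal.{u}) ^ (𝔠 : Cardinal.{u})) :
    ∃ τ : TopologicalSpace G, IsTopologicalAddGroup G ∧ T2Space G ∧ WinsSp G τ :=
  result G hp fun _ a b => ((b _ a).not_ge h).elim

end Pool.Agent.Results.MP_fe6d4f_gt.SpLocalSCH
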