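import Mathlib
import Pool.Agent.Lib.MP_fe6d4f_gt.V.Dense

/-!
For torsion groups, Q1 and Q2 are equivalent to a lower bound for the sizes of
`G_δ`-dense subsets of Cantor cubes of strong limit weight.
-/

namespace Pool.Agent.Results.MP_fe6d4f_gt.TorsionEquiv

open Cardinal Pool.Agent.Lib.MP_fe6d4f_gt.Sp Pool.Agent.Lib.MP_fe6d4f_gt

universe u

theorem result :
    List.TFAE
      [∀ (G : Type u) [AddCommGroup G], (∀ g : G, ∃ k : ℕ, 0 < k ∧ k • g = 0) →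
        (∃ τ : TopologicalSpace G, IsTopologicalAddGroup G ∧ T2Space G ∧
          ∀ f : G → ℝ, Continuous f → ∃ C, ∀ x, |f x| ≤ C) →
        ∃ τ : TopologicalSpace G, IsTopologicalAddGroup G ∧ T2Space G ∧ WinsSsp G τ,
       ∀ (G : Type u) [AddCommGroup G], (∀ g : G, ∃ k : ℕ, 0 < k ∧ k • g = 0) →
        (∃ τ : TopologicalSpace G, IsTopologicalAddGroup G ∧ T2Space G ∧
          ∀ f : G → ℝ, Continuous f → ∃ C, ∀ x, |f x| ≤ C) →
        ∃ τ : TopologicalSpace G, IsTopologicalAddGroup G ∧ T2Space G ∧ WinsSp G τ,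
       ∀ (G : Type u) [AddCommGroup G], (∀ g : G, 2 • g = 0) →
        (∃ τ : TopologicalSpace G, IsTopologicalAddGroup G ∧ T2Space G ∧
          ∀ f : G → ℝ, Continuous f → ∃ C, ∀ x, |f x| ≤ C) →
        ∃ τ : TopologicalSpace G, IsTopologicalAddGroup G ∧ T2Space G ∧ WinsSp G τ,
       ∀ (I : Type u) (Y : Set (I → ZMod 2)), (#I).IsStrongLimit →
        (∀ J : Set I, J.Countable → ∀ z : I → ZMod 2, ∃ y ∈ Y, ∀ j ∈ J, y j = z j) →
        #I ^ ℵ₀ ≤ #Y] := by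
  tfae_have 1 → 2 := fun h G _ a b => let ⟨τ, c, d, e⟩ := h G a b; ⟨τ, c, d, e.sp⟩
  tfae_have 2 → 3 := fun h G _ a => h G fun g => ⟨2, two_pos, a g⟩
  tfae_have 3 → 4 := V.Mp_of_sp
  tfae_have 4 → 1 := fun h G _ => V.ssp_of_Mp h G
  tfae_finish

end Pool.Agent.Results.MP_fe6d4f_gt.TorsionEquiv
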